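import Mathlib

set_option autoImplicit false

namespace Pool.Agent.Results.MP_9a0911_co.NoNearOrthogonalRelabelling

/-- `L` is a Latin square of order `n` on the symbol set `Fin n`. -/
def IsLatin {n : ℕ} (L : Fin n → Fin n → Fin n) : Prop :=
  (∀ i, Function.Bijective (L i)) ∧ ∀ j, Function.Bijective fun i => L i j

/-- The number of distinct superimposed pairs. -/
noncomputable def pairCount {n : ℕ} (L M : Fin n → Fin n → Fin n) : ℕ :=
  Nat.card (Set.range fun p : Fin n × Fin n => (L p.1 p.2, M p.1 p.2))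

/-- `(L, M)` is `r`-orthogonal. -/
def IsOrthogonal {n : ℕ} (r : ℕ) (L M : Fin n → Fin n → Fin n) : Prop :=
  IsLatin L ∧ IsLatin M ∧ pairCount L M = r

/-- `L` has a `2 × 2` Latin subsquare in rows `i ≠ i'` and columns `j ≠ j'`. -/
def HasSubsquare {n : ℕ} (L : Fin n → Fin n → Fin n) (i i' j j' : Fin n) : Prop :=
  i ≠ i' ∧ j ≠ j' ∧ L i j = L i' j' ∧ L i j' = L i' j ∧ L i j ≠ L i j'

/-- `(L, M)` is near-orthogonal: it is `(n^2-2)`-orthogonal and for some rows and columns both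
squares have a `2 × 2` Latin subsquare there, these using the same two symbols. -/
def NearOrthogonal {n : ℕ} (L M : Fin n → Fin n → Fin n) : Prop :=
  IsOrthogonal (n ^ 2 - 2) L M ∧ ∃ i i' j j', HasSubsquare L i i' j j' ∧ HasSubsquare M i i' j j' ∧
    ({L i j, L i j'} : Set (Fin n)) = {M i j, M i j'}

def L₀ : Fin 7 → Fin 7 → Fin 7 := ![
  ![0, 6, 2, 4, 5, 1, 3],
  ![5, 4, 0, 6, 3, 2, 1],
  ![1, 0, 6, 3, 2, 5, 4],
  ![4, 5, 3, 1, 0, 6, 2],
  ![6, 1, 5, 2, 4, 3, 0],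
  ![3, 2, 4, 5, 1, 0, 6],
  ![2, 3, 1, 0, 6, 4, 5]]

def M₀ : Fin 7 → Fin 7 → Fin 7 := ![
  ![1, 0, 2, 3, 4, 5, 6],
  ![6, 4, 5, 2, 1, 3, 0],
  ![3, 2, 1, 4, 6, 0, 5],
  ![2, 5, 0, 1, 3, 6, 4],
  ![4, 6, 3, 5, 0, 2, 1],
  ![5, 1, 6, 0, 2, 4, 3],
  ![0, 3, 4, 6, 5, 1, 2]]

theorem isLatin_of {f : Fin 7 → Fin 7 → Fin 7} (h1 : ∀ i, Function.Injective (f i))
    (h2 : ∀ j, Function.Injective fun i => f i j) : IsLatin f :=
  ⟨fun i => Finite.injective_iff_bijective.mp (h1 i),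
    fun j => Finite.injective_iff_bijective.mp (h2 j)⟩

theorem latin_L : IsLatin L₀ := isLatin_of (by decide +kernel) (by decide +kernel)

theorem latin_M : IsLatin M₀ := isLatin_of (by decide +kernel) (by decide +kernel)

theorem count : pairCount L₀ M₀ = 7 ^ 2 - 2 := by
  classical
  have h : (Finset.univ.image fun p : Fin 7 × Fin 7 => (L₀ p.1 p.2, M₀ p.1 p.2)).card = 47 := by
    decide +kernel
  unfold pairCount
  have h2 : (Set.range fun p : Fin 7 × Fin 7 => (L₀ p.1 p.2, M₀ p.1 p.2)) =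
      ↑(Finset.univ.image fun p : Fin 7 × Fin 7 => (L₀ p.1 p.2, M₀ p.1 p.2)) := by
    simp
  rw [h2, Nat.card_coe_set_eq, Set.ncard_coe_finset, h]; norm_num

theorem no_common : ∀ i i' j j' : Fin 7, i ≠ i' → j ≠ j' → L₀ i j = L₀ i' j' → L₀ i j' = L₀ i' j →
    M₀ i j = M₀ i' j' → M₀ i j' = M₀ i' j → False := by
  decide +kernel

/-- **Main result.** There is a `47`-orthogonal pair `(L, M)` of Latin squares of order `7`
(`47 = 7^2 - 2`) having no common position of a `2 × 2` Latin subsquare; in particular no relabelling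
`σ ∘ M` makes the pair near-orthogonal. -/
theorem result : ∃ L M : Fin 7 → Fin 7 → Fin 7, IsOrthogonal (7 ^ 2 - 2) L M ∧
    (¬ ∃ i i' j j', HasSubsquare L i i' j j' ∧ HasSubsquare M i i' j j') ∧
    ∀ σ : Equiv.Perm (Fin 7), ¬ NearOrthogonal L fun i j => σ (M i j) := by
  refine ⟨L₀, M₀, ⟨latin_L, latin_M, count⟩, ?_, ?_⟩
  · rintro ⟨i, i', j, j', ⟨hi, hj, h1, h2, -⟩, ⟨-, -, h3, h4, -⟩⟩
    exact no_common i i' j j' hi hj h1 h2 h3 h4
  · rintro σ ⟨-, i, i', j, j', ⟨hi, hj, h1, h2, -⟩, ⟨-, -, h3, h4, -⟩, -⟩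
    exact no_common i i' j j' hi hj h1 h2 (σ.injective h3) (σ.injective h4)

end Pool.Agent.Results.MP_9a0911_co.NoNearOrthogonalRelabelling
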